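import Pool.Agent.H62.GHK.LSA

/-!
Row LSK of the board ghk, part B: the duality for families.
-/

set_option autoImplicit false

namespace Pool.Agent.H62.GHK

open MeasureTheory
open scoped ENNReal ComplexConjugate

section conv

variable {A R : Type} [MeasurableSpace A] [Fintype R] [MeasurableSpace R]
  [MeasurableSingletonClass R]

theorem lintX (μ : Measure A) [SFinite μ] (G : A × R → ℝ≥0∞) (hG : Measurable G) :
    ∫⁻ p, G p ∂(μ.prod (Measure.count : Measure R)) = ∫⁻ g, ∑ x, G (g, x) ∂μ := by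
  rw [lintegral_prod _ hG.aemeasurable]
  refine lintegral_congr (fun g => ?_)
  rw [lintegral_count, tsum_fintype]

theorem intX (μ : Measure A) [SFinite μ] (G : A × R → ℂ)
    (hG : Integrable G (μ.prod (Measure.count : Measure R))) :
    ∫ p, G p ∂(μ.prod (Measure.count : Measure R)) = ∑ x, ∫ g, G (g, x) ∂μ := by
  rw [integral_prod_symm _ hG, integral_count]

theorem intX' (μ : Measure A) [SFinite μ] (G : A × R → ℂ)
    (hG : Integrable G (μ.prod (Measure.count : Measure R))) :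
    ∫ p, G p ∂(μ.prod (Measure.count : Measure R)) = ∫ g, ∑ x, G (g, x) ∂μ := by
  rw [integral_prod _ hG]
  simp only [integral_count]

theorem lintO (ν : Measure A) [SFinite ν] (G : R × A → ℝ≥0∞) (hG : Measurable G) :
    ∫⁻ p, G p ∂((Measure.count : Measure R).prod ν) = ∑ i, ∫⁻ u, G (i, u) ∂ν := by
  rw [lintegral_prod _ hG.aemeasurable, lintegral_count, tsum_fintype]

theorem intO (ν : Measure A) [SFinite ν] (G : R × A → ℂ)
    (hG : Integrable G ((Measure.count : Measure R).prod ν)) :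
    ∫ p, G p ∂((Measure.count : Measure R).prod ν) = ∑ i, ∫ u, G (i, u) ∂ν := by
  rw [integral_prod _ hG, integral_count]

omit [Fintype R] [MeasurableSingletonClass R] in
theorem aeO (ν : Measure A) [SFinite ν] {p : R × A → Prop}
    (h : ∀ᵐ z ∂((Measure.count : Measure R).prod ν), p z) (i : R) : ∀ᵐ u ∂ν, p (i, u) := by
  have h1 := Measure.ae_ae_of_ae_prod h
  rw [Measure.ae_count_iff] at h1
  exact h1 i

omit [Fintype R] [MeasurableSingletonClass R] in
theorem aeO' (ν : Measure A) [SFinite ν] {p : R × A → Prop} (hp : MeasurableSet {z | p z})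
    (h : ∀ i, ∀ᵐ u ∂ν, p (i, u)) : ∀ᵐ z ∂((Measure.count : Measure R).prod ν), p z := by
  rw [Measure.ae_prod_iff_ae_ae hp]
  exact Measure.ae_count_iff.2 h

end conv

section fam

variable {A B R ι : Type} [MeasurableSpace A] [MeasurableSpace B] [Fintype R] [MeasurableSpace R]
  [MeasurableSingletonClass R] [Fintype ι] [MeasurableSpace ι] [MeasurableSingletonClass ι]

theorem fam_meas {f : ι → B → A → R → ℂ}
    (hf : ∀ i x, Measurable (fun p : B × A => f i p.1 p.2 x)) :
    Measurable (fun p : (ι × B) × (A × R) => f p.1.1 p.1.2 p.2.1 p.2.2) := by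
  have h1 : Measurable (fun q : (B × A) × (ι × R) => f q.2.1 q.1.1 q.1.2 q.2.2) :=
    measurable_from_prod_countable_left fun y => hf y.1 y.2
  have h2 : Measurable (fun p : (ι × B) × (A × R) =>
      (((p.1.2, p.2.1), (p.1.1, p.2.2)) : (B × A) × (ι × R))) := by fun_prop
  exact h1.comp h2

theorem fam_measK {K : A → R → A → R → ℂ}
    (hK : ∀ x w, Measurable (fun p : A × A => K p.1 x p.2 w)) :
    Measurable (fun p : (A × R) × (A × R) => K p.1.1 p.1.2 p.2.1 p.2.2) := by
  have h1 : Measurable (fun q : (A × A) × (R × R) => K q.1.1 q.2.1 q.1.2 q.2.2) :=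
    measurable_from_prod_countable_left fun y => hK y.1 y.2
  have h2 : Measurable (fun p : (A × R) × (A × R) =>
      (((p.1.1, p.2.1), (p.1.2, p.2.2)) : (A × A) × (R × R))) := by fun_prop
  exact h1.comp h2

/-- a bounded measurable family -/
structure Fam (M : ℝ) (f : ι → B → A → R → ℂ) : Prop where
  meas : ∀ i x, Measurable (fun p : B × A => f i p.1 p.2 x)
  bd : ∀ i u g x, ‖f i u g x‖ ≤ M

theorem fam_prod (μ : Measure A) (ν : Measure B) [IsFiniteMeasure μ] [IsFiniteMeasure ν]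
    {f r : ι → B → A → R → ℂ} {M : ℝ} (hf : Fam M f) (hr : Fam M r) (c : ι → ℂ)
    (horth : ∀ i j, i ≠ j → ∀ᵐ u ∂ν, ∀ᵐ u' ∂ν, ∑ w, ∫ h, f i u h w * conj (f j u' h w) ∂μ = 0)
    {A0 : ℝ} (hA1 : ∀ (u : ι × B) (p : A × R), ‖c u.1 * f u.1 u.2 p.1 p.2‖ ≤ A0)
    (hA2 : ∀ (u : ι × B) (p : A × R), ‖r u.1 u.2 p.1 p.2‖ ≤ A0) :
    ‖∫ w : (ι × B) × (ι × B),
      (∫ p : A × R, (c w.1.1 * f w.1.1 w.1.2 p.1 p.2) * conj (c w.2.1 * f w.2.1 w.2.2 p.1 p.2)
        ∂(μ.prod (Measure.count : Measure R))) *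
      conj (∫ q : A × R, r w.1.1 w.1.2 q.1 q.2 * conj (r w.2.1 w.2.2 q.1 q.2)
        ∂(μ.prod (Measure.count : Measure R)))
        ∂(((Measure.count : Measure ι).prod ν).prod ((Measure.count : Measure ι).prod ν))‖ ≤
    ∑ i, ‖c i‖ ^ 2 * ‖∫ u, ∫ u', (∑ w, ∫ h, f i u h w * conj (f i u' h w) ∂μ) *
      conj (∑ x, ∫ g, r i u g x * conj (r i u' g x) ∂μ) ∂ν ∂ν‖ := by
  have hφ : Measurable (fun p : (ι × B) × (A × R) => c p.1.1 * f p.1.1 p.1.2 p.2.1 p.2.2) := by
    have h1 : Measurable (fun p : (ι × B) × (A × R) => c p.1.1) :=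
      (measurable_of_countable c).comp (by fun_prop)
    exact h1.mul (fam_meas hf.meas)
  have hρ := fam_meas hr.meas
  have hint := absQ_int2 ((Measure.count : Measure ι).prod ν)
    (μ.prod (Measure.count : Measure R)) (φ := fun u p => c u.1 * f u.1 u.2 p.1 p.2)
    (ρ := fun u p => r u.1 u.2 p.1 p.2) hφ hρ (A := A0) hA1 hA2
  have e1 : ∀ u u' : ι × B, ∫ p : A × R, (c u.1 * f u.1 u.2 p.1 p.2) *
      conj (c u'.1 * f u'.1 u'.2 p.1 p.2) ∂(μ.prod (Measure.count : Measure R)) =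
      c u.1 * conj (c u'.1) * ∑ w, ∫ h, f u.1 u.2 h w * conj (f u'.1 u'.2 h w) ∂μ := by
    intro u u'
    have hi : Integrable (fun p : A × R => (c u.1 * f u.1 u.2 p.1 p.2) *
        conj (c u'.1 * f u'.1 u'.2 p.1 p.2)) (μ.prod (Measure.count : Measure R)) := by
      have m1 : Measurable (fun p : A × R => c u.1 * f u.1 u.2 p.1 p.2) :=
        hφ.comp (measurable_prodMk_left : Measurable (Prod.mk u))
      have m2 : Measurable (fun p : A × R => c u'.1 * f u'.1 u'.2 p.1 p.2) :=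
        hφ.comp (measurable_prodMk_left : Measurable (Prod.mk u'))
      refine Integrable.of_bound (m1.mul (Complex.continuous_conj.measurable.comp
        m2)).aestronglyMeasurable (A0 * A0) (Filter.Eventually.of_forall fun p => ?_)
      rw [norm_mul, RCLike.norm_conj]
      exact mul_le_mul (hA1 u p) (hA1 u' p) (norm_nonneg _) ((norm_nonneg _).trans (hA1 u p))
    rw [intX μ _ hi, Finset.mul_sum]
    refine Finset.sum_congr rfl fun w _ => ?_
    rw [← integral_const_mul]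
    refine integral_congr_ae (Filter.Eventually.of_forall fun h => ?_)
    simp only [map_mul]
    ring
  have e2 : ∀ u u' : ι × B, ∫ q : A × R, r u.1 u.2 q.1 q.2 * conj (r u'.1 u'.2 q.1 q.2)
      ∂(μ.prod (Measure.count : Measure R)) =
      ∑ x, ∫ g, r u.1 u.2 g x * conj (r u'.1 u'.2 g x) ∂μ := by
    intro u u'
    have hi : Integrable (fun p : A × R => r u.1 u.2 p.1 p.2 * conj (r u'.1 u'.2 p.1 p.2))
        (μ.prod (Measure.count : Measure R)) := by
      have m1 : Measurable (fun p : A × R => r u.1 u.2 p.1 p.2) :=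
        hρ.comp (measurable_prodMk_left : Measurable (Prod.mk u))
      have m2 : Measurable (fun p : A × R => r u'.1 u'.2 p.1 p.2) :=
        hρ.comp (measurable_prodMk_left : Measurable (Prod.mk u'))
      refine Integrable.of_bound (m1.mul (Complex.continuous_conj.measurable.comp
        m2)).aestronglyMeasurable (A0 * A0) (Filter.Eventually.of_forall fun p => ?_)
      rw [norm_mul, RCLike.norm_conj]
      exact mul_le_mul (hA2 u p) (hA2 u' p) (norm_nonneg _) ((norm_nonneg _).trans (hA2 u p))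
    exact intX μ _ hi
  simp only [e1, e2] at hint ⊢
  rw [integral_prod _ hint]
  have hint1 := hint.integral_prod_left
  rw [intO ν _ hint1]
  have e3 : ∀ i, ∫ u, ∫ u' : ι × B, (c i * conj (c u'.1) *
      ∑ w, ∫ h, f i u h w * conj (f u'.1 u'.2 h w) ∂μ) *
      conj (∑ x, ∫ g, r i u g x * conj (r u'.1 u'.2 g x) ∂μ)
        ∂((Measure.count : Measure ι).prod ν) ∂ν =
      (‖c i‖ ^ 2 : ℝ) * ∫ u, ∫ u', (∑ w, ∫ h, f i u h w * conj (f i u' h w) ∂μ) *
      conj (∑ x, ∫ g, r i u g x * conj (r i u' g x) ∂μ) ∂ν ∂ν := by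
    intro i
    rw [← integral_const_mul]
    refine integral_congr_ae ?_
    have hall : ∀ᵐ u ∂ν, ∀ j, i ≠ j → ∀ᵐ u' ∂ν,
        ∑ w, ∫ h, f i u h w * conj (f j u' h w) ∂μ = 0 := by
      rw [ae_all_iff]
      intro j
      by_cases hj : i = j
      · exact Filter.Eventually.of_forall fun u h => absurd hj h
      · filter_upwards [horth i j hj] with u hu _ using hu
    filter_upwards [aeO ν hint.prod_right_ae i, hall] with u hu hall
    rw [intO ν _ hu, Finset.sum_eq_single i]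
    · rw [← integral_const_mul]
      refine integral_congr_ae (Filter.Eventually.of_forall fun u' => ?_)
      have h5 : ((‖c i‖ ^ 2 : ℝ) : ℂ) = c i * conj (c i) := by
        rw [Complex.mul_conj, Complex.normSq_eq_norm_sq]
      simp only [h5]
      ring
    · intro j _ hj
      rw [integral_eq_zero_of_ae]
      filter_upwards [hall j (Ne.symm hj)] with u' hu'
      simp only [hu', mul_zero, zero_mul, Pi.zero_apply]
    · intro h
      exact absurd (Finset.mem_univ i) h
  simp only [e3]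
  refine (norm_sum_le _ _).trans (Finset.sum_le_sum fun i _ => ?_)
  rw [norm_mul, Complex.norm_real, Real.norm_of_nonneg (by positivity)]

theorem lay2 (μ : Measure A) (ν : Measure B) [IsFiniteMeasure μ] [IsFiniteMeasure ν]
    {f r : ι → B → A → R → ℂ} {M : ℝ} (hf : Fam M f) (hr : Fam M r)
    {K : A → R → A → R → ℂ} (hK : ∀ x w, Measurable (fun p : A × A => K p.1 x p.2 w))
    (c Bc : ι → ℂ) (b : ι → ℝ) (hb : ∀ i, 0 ≤ b i) (hbc : ∀ i, c i * Bc i = b i)
    {S : Set A} (hS : MeasurableSet S)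
    (hop : ∀ g ∈ S, ∀ x, (∀ w, Integrable (fun h => K g x h w) μ) → ∀ i, ∀ᵐ u ∂ν,
      ∫ h, ∑ w, K g x h w * f i u h w ∂μ = Bc i * r i u g x)
    (hfin : ∫⁻ g in S, ∑ x, ∫⁻ h, ∑ w, ENNReal.ofReal (‖K g x h w‖ ^ 2) ∂μ ∂μ ≠ ⊤)
    (horth : ∀ i j, i ≠ j → ∀ᵐ u ∂ν, ∀ᵐ u' ∂ν,
      ∑ w, ∫ h, f i u h w * conj (f j u' h w) ∂μ = 0) :
    (∑ i, ENNReal.ofReal (b i) * ∫⁻ u, ∑ x, ∫⁻ g in S, ENNReal.ofReal (‖r i u g x‖ ^ 2)
      ∂μ ∂ν) ^ 2 ≤
    (∫⁻ g in S, ∑ x, ∫⁻ h, ∑ w, ENNReal.ofReal (‖K g x h w‖ ^ 2) ∂μ ∂μ) *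
      ENNReal.ofReal (∑ i, ‖c i‖ ^ 2 *
        ‖∫ u, ∫ u', (∑ w, ∫ h, f i u h w * conj (f i u' h w) ∂μ) *
          conj (∑ x, ∫ g, r i u g x * conj (r i u' g x) ∂μ) ∂ν ∂ν‖) := by
  have hMm : ∀ i u g x, ‖f i u g x‖ ≤ max M 0 := fun i u g x =>
    (hf.bd i u g x).trans (le_max_left _ _)
  have hc0 : 0 ≤ ∑ i, ‖c i‖ := Finset.sum_nonneg fun _ _ => norm_nonneg _
  have hM0 : 0 ≤ max M 0 := le_max_right _ _
  obtain ⟨A0, hA0⟩ : ∃ A0 : ℝ, A0 = (1 + ∑ i, ‖c i‖) * max M 0 := ⟨_, rfl⟩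
  have hA1 : ∀ (u : ι × B) (p : A × R), ‖c u.1 * f u.1 u.2 p.1 p.2‖ ≤ A0 := by
    intro u p
    rw [norm_mul, hA0]
    refine mul_le_mul ?_ (hMm _ _ _ _) (norm_nonneg _) (by positivity)
    have h1 : ‖c u.1‖ ≤ ∑ i, ‖c i‖ :=
      Finset.single_le_sum (f := fun i => ‖c i‖) (fun _ _ => norm_nonneg _) (Finset.mem_univ _)
    linarith
  have hA2 : ∀ (u : ι × B) (p : A × R), ‖r u.1 u.2 p.1 p.2‖ ≤ A0 := by
    intro u p
    rw [hA0]
    have h1 := (hr.bd u.1 u.2 p.1 p.2).trans (le_max_left M 0)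
    nlinarith
  have hφ : Measurable (fun p : (ι × B) × (A × R) => c p.1.1 * f p.1.1 p.1.2 p.2.1 p.2.2) := by
    have h1 : Measurable (fun p : (ι × B) × (A × R) => c p.1.1) :=
      (measurable_of_countable c).comp (by fun_prop)
    exact h1.mul (fam_meas hf.meas)
  have hρ := fam_meas hr.meas
  have hKm := fam_measK hK
  have hbm : Measurable (fun u : ι × B => b u.1) := (measurable_of_countable b).comp measurable_fst
  have hSm : MeasurableSet (S ×ˢ (Set.univ : Set R)) := hS.prod MeasurableSet.univ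
  have hres : ((μ.prod (Measure.count : Measure R)).restrict (S ×ˢ (Set.univ : Set R))) =
      (μ.restrict S).prod (Measure.count : Measure R) := by
    rw [← Measure.prod_restrict, Measure.restrict_univ]
  have hKsq : Measurable (fun z : (A × R) × (A × R) =>
      ENNReal.ofReal (‖K z.1.1 z.1.2 z.2.1 z.2.2‖ ^ 2)) := (hKm.norm.pow_const 2).ennreal_ofReal
  have eK : ∀ q : A × R, ∫⁻ p : A × R, ENNReal.ofReal (‖K q.1 q.2 p.1 p.2‖ ^ 2)
      ∂(μ.prod (Measure.count : Measure R)) =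
      ∫⁻ h, ∑ w, ENNReal.ofReal (‖K q.1 q.2 h w‖ ^ 2) ∂μ := fun q =>
    lintX μ (fun p : A × R => ENNReal.ofReal (‖K q.1 q.2 p.1 p.2‖ ^ 2))
      (hKsq.comp (measurable_prodMk_left : Measurable (Prod.mk q)))
  have eK2 : ∫⁻ q in S ×ˢ (Set.univ : Set R), ∫⁻ p : A × R,
      ENNReal.ofReal (‖K q.1 q.2 p.1 p.2‖ ^ 2)
      ∂(μ.prod (Measure.count : Measure R)) ∂(μ.prod (Measure.count : Measure R)) =
      ∫⁻ g in S, ∑ x, ∫⁻ h, ∑ w, ENNReal.ofReal (‖K g x h w‖ ^ 2) ∂μ ∂μ := by
    rw [hres, lintX (μ.restrict S) _ hKsq.lintegral_prod_right']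
    refine lintegral_congr fun g => Finset.sum_congr rfl fun x _ => ?_
    exact eK (g, x)
  have hmain := absK ((Measure.count : Measure ι).prod ν) (μ.prod (Measure.count : Measure R))
    (φ := fun u p => c u.1 * f u.1 u.2 p.1 p.2) (ρ := fun u p => r u.1 u.2 p.1 p.2) hφ hρ
    (A := A0) hA1 hA2 (K := fun q p => K q.1 q.2 p.1 p.2) hKm (b := fun u => b u.1) hbm
    (fun u => hb u.1) (M := ∑ i, b i)
    (fun u => Finset.single_le_sum (f := b) (fun _ _ => hb _) (Finset.mem_univ _)) hSm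
    (by
      intro q hq hKi
      have hKi2 : ∀ w, Integrable (fun h => K q.1 q.2 h w) μ := by
        have h1 := hKi.prod_left_ae
        rw [Measure.ae_count_iff] at h1
        exact h1
      have h2 := hop q.1 hq.1 q.2 hKi2
      have hms : MeasurableSet {u : ι × B | ∫ p : A × R, K q.1 q.2 p.1 p.2 *
          (c u.1 * f u.1 u.2 p.1 p.2) ∂(μ.prod (Measure.count : Measure R)) =
            (b u.1 : ℂ) * r u.1 u.2 q.1 q.2} := by
        have m1 : Measurable (fun z : (ι × B) × (A × R) => K q.1 q.2 z.2.1 z.2.2 *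
            (c z.1.1 * f z.1.1 z.1.2 z.2.1 z.2.2)) :=
          ((hKm.comp (measurable_prodMk_left : Measurable (Prod.mk q))).comp
            measurable_snd).mul hφ
        have m2 := (m1.stronglyMeasurable.integral_prod_right'
          (ν := μ.prod (Measure.count : Measure R))).measurable
        have m3 : Measurable (fun u : ι × B => (b u.1 : ℂ) * r u.1 u.2 q.1 q.2) :=
          (Complex.measurable_ofReal.comp hbm).mul (hρ.comp
            (measurable_prodMk_right : Measurable (fun u : ι × B => (u, q))))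
        exact measurableSet_eq_fun m2 m3
      refine aeO' ν hms fun i => ?_
      filter_upwards [h2 i] with u hu
      have hi : Integrable (fun p : A × R => K q.1 q.2 p.1 p.2 * (c i * f i u p.1 p.2))
          (μ.prod (Measure.count : Measure R)) := by
        have m2 : Measurable (fun p : A × R => c i * f i u p.1 p.2) :=
          hφ.comp (measurable_prodMk_left : Measurable (Prod.mk ((i, u) : ι × B)))
        refine (hKi.bdd_mul (c := A0) m2.aestronglyMeasurable
          (Filter.Eventually.of_forall fun p => hA1 (i, u) p)).congr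
          (Filter.Eventually.of_forall fun p => mul_comm _ _)
      show ∫ p : A × R, K q.1 q.2 p.1 p.2 * (c i * f i u p.1 p.2)
        ∂(μ.prod (Measure.count : Measure R)) = (b i : ℂ) * r i u q.1 q.2
      rw [intX' μ _ hi, ← hbc i, mul_assoc, ← hu, ← integral_const_mul]
      refine integral_congr_ae (Filter.Eventually.of_forall fun h => ?_)
      show ∑ w, K q.1 q.2 h w * (c i * f i u h w) = c i * ∑ w, K q.1 q.2 h w * f i u h w
      rw [Finset.mul_sum]
      exact Finset.sum_congr rfl fun w _ => by ring)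
    (by rw [eK2]; exact hfin)
  rw [eK2, absQ ((Measure.count : Measure ι).prod ν) (μ.prod (Measure.count : Measure R))
    (φ := fun u p => c u.1 * f u.1 u.2 p.1 p.2) (ρ := fun u p => r u.1 u.2 p.1 p.2) hφ hρ
    (A := A0) hA1 hA2] at hmain
  have hQ := fam_prod μ ν hf hr c horth hA1 hA2
  have eL : ∫⁻ u : ι × B, ENNReal.ofReal (b u.1) * ∫⁻ q in S ×ˢ (Set.univ : Set R),
      ENNReal.ofReal (‖r u.1 u.2 q.1 q.2‖ ^ 2) ∂(μ.prod (Measure.count : Measure R))
        ∂((Measure.count : Measure ι).prod ν) =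
      ∑ i, ENNReal.ofReal (b i) * ∫⁻ u, ∑ x, ∫⁻ g in S, ENNReal.ofReal (‖r i u g x‖ ^ 2)
        ∂μ ∂ν := by
    have hρsq : Measurable (fun z : (ι × B) × (A × R) =>
      ENNReal.ofReal (‖r z.1.1 z.1.2 z.2.1 z.2.2‖ ^ 2)) := (hρ.norm.pow_const 2).ennreal_ofReal
    have m4 : Measurable (fun u : ι × B => ∫⁻ q : A × R, ENNReal.ofReal (‖r u.1 u.2 q.1 q.2‖ ^ 2)
        ∂((μ.restrict S).prod (Measure.count : Measure R))) := hρsq.lintegral_prod_right'
    rw [hres]
    refine (lintO ν (fun u : ι × B => ENNReal.ofReal (b u.1) * ∫⁻ q : A × R,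
      ENNReal.ofReal (‖r u.1 u.2 q.1 q.2‖ ^ 2) ∂((μ.restrict S).prod (Measure.count : Measure R)))
      (hbm.ennreal_ofReal.mul m4)).trans ?_
    refine Finset.sum_congr rfl fun i _ => ?_
    refine (lintegral_const_mul' (ENNReal.ofReal (b i)) _ ENNReal.ofReal_ne_top).trans ?_
    congr 1
    refine lintegral_congr fun u => ?_
    have h1 : Measurable (fun q : A × R => ENNReal.ofReal (‖r i u q.1 q.2‖ ^ 2)) :=
      hρsq.comp (measurable_prodMk_left : Measurable (Prod.mk ((i, u) : ι × B)))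
    rw [lintX (μ.restrict S) _ h1, lintegral_finsetSum]
    intro x _
    exact h1.comp (by fun_prop : Measurable (fun g : A => (g, x)))
  rw [eL] at hmain
  exact hmain.trans (mul_le_mul_right (ENNReal.ofReal_le_ofReal hQ) _)

end fam

end Pool.Agent.H62.GHK
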