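import Pool.Agent.H62.GHK.LSB
import Pool.Agent.H62.GHY.SPLC
import Pool.Agent.H68.GHK.Targets

/-!
Row LSK of the board ghk, part C: the families of translates.
-/

set_option autoImplicit false

namespace Pool.Agent.H62.GHK

open MeasureTheory Filter
open Pool.Agent.H34.GM Pool.Agent.H34.GZ Pool.Agent.H34.GU Pool.Agent.H34.GA Pool.Agent.H68.GHY
  Pool.Agent.H68.GHK
open Pool.Agent.H90.GA (sz_nn inv_near det_ne_D det_inv_ne fin_D le_sz)
open Pool.Agent.H46.GU (fz fz_eq fz_meas)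
open Pool.Agent.H91.GA (tr tr_meas fz_tr)
open Pool.Agent.H74.GA (tg_bd)
open scoped ENNReal ComplexConjugate

/-- the product -/
def ml {m : ℕ} (a b : V m) : V m := fun i j => ((mt a : Mat m) * mt b) i j

theorem ml_meas (m : ℕ) : Measurable (fun p : V m × V m => ml p.1 p.2) := by
  have h1 : Continuous (fun p : V m × V m => ml p.1 p.2) := by
    have h2 : Continuous (fun p : V m × V m => (mt p.1 : Mat m) * mt p.2) :=
      (th1_cmt.comp continuous_fst).matrix_mul (th1_cmt.comp continuous_snd)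
    exact h2
  exact h1.measurable

theorem fz_bd {m N : ℕ} {F : Mat m → VN m N → ℂ} {B : ℝ}
    (hB : ∀ (g : Mat m) (x : VN m N), g.det ≠ 0 → ‖F g x‖ ≤ B) (x : VN m N) (z : V m) :
    ‖fz F x z‖ ≤ max B 0 := by
  unfold fz
  split_ifs with h
  · rw [norm_zero]
    exact le_max_right _ _
  · exact (hB _ x h).trans (le_max_left _ _)

/-- translates -/
noncomputable def fF {m N : ℕ} (F : Mat m → VN m N → ℂ) (u h : V m) (w : VN m N) : ℂ :=
  fz F w (ml h u)

theorem fF_meas (hM : T_MSR) {m N : ℕ} {F : Mat m → VN m N → ℂ}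
    (hc : ∀ x, ContinuousOn (fun g => F g x) {g | g.det ≠ 0}) (w : VN m N) :
    Measurable (fun p : V m × V m => fF F p.1 p.2 w) :=
  (fz_meas hM hc w).comp ((ml_meas m).comp
    (by fun_prop : Measurable (fun p : V m × V m => (p.2, p.1))))

theorem fF_eq {m N : ℕ} (F : Mat m → VN m N → ℂ) (w : VN m N) {u h : V m}
    (hu : (mt u).det ≠ 0) (hh : (mt h).det ≠ 0) : fF F u h w = rt (mt u) F (mt h) w := by
  have h1 : (mt (ml h u) : Mat m).det ≠ 0 := by
    show ((mt h : Mat m) * mt u).det ≠ 0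
    rw [Matrix.det_mul]
    exact mul_ne_zero hh hu
  exact fz_eq F w h1

/-- convolutions of the translates -/
noncomputable def rF {m N : ℕ} (k : Mat m → ℂ) (F : Mat m → VN m N → ℂ) (u g : V m)
    (x : VN m N) : ℂ :=
  ∫ v in Shell m, k (((1 : ℝ)⁻¹ * (aN (mt v))⁻¹) • mt v) * fz F x (ml (tr g v) u) ∂(hm m)

theorem rF_meas (hM : T_MSR) {m N : ℕ} {k : Mat m → ℂ} (hk : Continuous k)
    {F : Mat m → VN m N → ℂ} (hc : ∀ x, ContinuousOn (fun g => F g x) {g | g.det ≠ 0})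
    (x : VN m N) : Measurable (fun p : V m × V m => rF k F p.1 p.2 x) := by
  obtain ⟨-, -, -, -, hσ, -, -, -⟩ := hM.1 m
  have h1 : Measurable (fun p : (V m × V m) × V m =>
      k (((1 : ℝ)⁻¹ * (aN (mt p.2))⁻¹) • mt p.2) * fz F x (ml (tr p.1.2 p.2) p.1.1)) := by
    refine ((th1_meas hM hk (1 : ℝ)⁻¹).comp measurable_snd).mul ?_
    have h2 : Measurable (fun p : (V m × V m) × V m => (tr p.1.2 p.2, p.1.1)) := by
      refine Measurable.prodMk ?_ (by fun_prop)
      exact (tr_meas hM m).comp (by fun_prop : Measurable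
        (fun p : (V m × V m) × V m => (p.1.2, p.2)))
    exact (fz_meas hM hc x).comp ((ml_meas m).comp h2)
  exact (h1.stronglyMeasurable.integral_prod_right' (ν := (hm m).restrict (Shell m))).measurable

theorem rF_eq {m N : ℕ} (hM : T_MSR) (hm1 : 1 ≤ m) (k : Mat m → ℂ) (F : Mat m → VN m N → ℂ)
    (x : VN m N) {u g : V m} (hu : (mt u).det ≠ 0) (hg : (mt g).det ≠ 0) :
    rF k F u g x = Rr k 1 (rt (mt u) F) (mt g) x := by
  obtain ⟨-, -, -, -, -, hSh, -, -⟩ := hM.1 m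
  refine setIntegral_congr_fun hSh fun v hv => ?_
  have hv0 : (mt v).det ≠ 0 := th1_det_ne hm1 hv
  have h1 : (mt (ml (tr g v) u) : Mat m).det ≠ 0 := by
    show ((mt g : Mat m) * (mt v)⁻¹ * mt u).det ≠ 0
    rw [Matrix.det_mul, Matrix.det_mul]
    exact mul_ne_zero (mul_ne_zero hg (det_inv_ne hv0)) hu
  show k (((1 : ℝ)⁻¹ * (aN (mt v))⁻¹) • mt v) * fz F x (ml (tr g v) u) =
    k (((1 : ℝ)⁻¹ * (aN (mt v))⁻¹) • mt v) * F ((mt g : Mat m) * (mt v)⁻¹ * mt u) x
  rw [fz_eq F x h1]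
  rfl

theorem rF_bd (hM : T_MSR) (hH : T_HAR) {m N : ℕ} (hm1 : 1 ≤ m) {k : Mat m → ℂ} (hk : Tg m k)
    {F : Mat m → VN m N → ℂ} {B : ℝ}
    (hB : ∀ (g : Mat m) (x : VN m N), g.det ≠ 0 → ‖F g x‖ ≤ B) :
    ∀ (u g : V m) (x : VN m N), ‖rF k F u g x‖ ≤
      ∫ v in Shell m, ‖k (((1 : ℝ)⁻¹ * (aN (mt v))⁻¹) • mt v)‖ * max B 0 ∂(hm m) := by
  intro u g x
  have h1 : IntegrableOn (fun v : V m => k (((1 : ℝ)⁻¹ * (aN (mt v))⁻¹) • mt v) * 1)
      (Shell m) (hm m) :=
    Pool.Agent.H74.GA.rr_int (N := N) (x := x) hM hH hm1 hk (one_pos : (0 : ℝ) < 1)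
      (F := fun _ _ => (1 : ℂ)) continuousOn_const (B := 1) (fun _ _ => by simp)
      (g := (1 : Mat m)) (by simp)
  simp only [mul_one] at h1
  refine norm_integral_le_of_norm_le (h1.norm.mul_const _) (Eventually.of_forall fun v => ?_)
  rw [norm_mul]
  exact mul_le_mul_of_nonneg_left (fz_bd hB x _) (norm_nonneg _)

/-! ### the neighbourhood of the identity -/

theorem Bn_closed (m : ℕ) (r : ℝ) : IsClosed (Bn m r) := by
  have h1 : Continuous (fun u : V m => sz ((mt u : Mat m) - 1)) := by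
    unfold sz
    have h2 : Continuous (fun u : V m => ((mt u : Mat m) - 1)) :=
      th1_cmt.sub continuous_const
    exact continuous_norm.comp h2
  exact isClosed_le h1 continuous_const

theorem Bn_fin (m : ℕ) (r : ℝ) : volume (Bn m r) < ⊤ := by
  have h1 : Bn m r ⊆ Metric.closedBall (fun i j => (1 : Mat m) i j) r := by
    intro u hu
    rw [Metric.mem_closedBall, dist_eq_norm]
    exact hu
  exact (measure_mono h1).trans_lt measure_closedBall_lt_top

theorem Bn_pos (m : ℕ) {r : ℝ} (hr : 0 < r) : volume (Bn m r) ≠ 0 := by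
  have h1 : Metric.ball (fun i j => (1 : Mat m) i j) r ⊆ Bn m r := by
    intro u hu
    rw [Metric.mem_ball, dist_eq_norm] at hu
    exact hu.le
  intro h
  exact (Metric.measure_ball_pos volume _ hr).ne' (measure_mono_null h1 h)

theorem Bn_det {m : ℕ} (hm1 : 1 ≤ m) {r : ℝ} (hr : 2 * m * r ≤ 1) {u : V m} (hu : u ∈ Bn m r) :
    (mt u).det ≠ 0 := by
  have h1 : sz ((mt u : Mat m) - 1) ≤ r := hu
  exact (inv_near hm1 h1 (by linarith)).1

end Pool.Agent.H62.GHK
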