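import Pool.Agent.H62.GHK.LSC

/-!
Row LSK of the board ghk: the sieve inequality for forms which generate orthogonal spaces.
-/

set_option autoImplicit false

namespace Pool.Agent.H62.GHK

open MeasureTheory Filter
open Pool.Agent.H34.GM Pool.Agent.H34.GZ Pool.Agent.H34.GU Pool.Agent.H34.GA Pool.Agent.H68.GHY
  Pool.Agent.H68.GHK
open Pool.Agent.H90.GA (sz_nn inv_near det_ne_D det_inv_ne fin_D le_sz)
open scoped ENNReal ComplexConjugate

/-- real numbers -/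
theorem lsk_num {c v T Sb e C : ℝ} (hc : 0 < c) (hv : 0 < v) (hT : 0 ≤ T) (hS : 0 ≤ Sb)
    (h : (c * T * v * Sb) ^ 2 ≤ e * (C * T * Sb)) (he : 0 ≤ e) (hC : 0 ≤ C) :
    T * Sb ≤ C / (c * v) ^ 2 * e := by
  have hcv : 0 < (c * v) ^ 2 := by positivity
  rw [div_mul_eq_mul_div, le_div_iff₀ hcv]
  by_cases h0 : T * Sb = 0
  · rw [h0, zero_mul]
    positivity
  · have h1 : 0 < T * Sb := lt_of_le_of_ne (mul_nonneg hT hS) (Ne.symm h0)
    have h2 : (T * Sb) * (T * Sb * (c * v) ^ 2) ≤ (T * Sb) * (C * e) := by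
      calc (T * Sb) * (T * Sb * (c * v) ^ 2) = (c * T * v * Sb) ^ 2 := by ring
        _ ≤ e * (C * T * Sb) := h
        _ = (T * Sb) * (C * e) := by ring
    exact le_of_mul_le_mul_left h2 h1

/-- the scalar product of translates -/
theorem ip_orth (hIPT : T_IPT) {m N : ℕ} [NeZero N] {T : ℕ → Finset (ZM m)} {D : Set (V m)}
    (hS : SysZ m N T D) {ι : Type} {F : ι → Mat m → VN m N → ℂ} {lam : ι → ℕ → ℂ}
    (hF : ∀ i, HecA m N T (F i) (lam i)) (hO : OrS D F) {i j : ι} (hij : i ≠ j) {u u' : Mat m}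
    (hu : u.det ≠ 0) (hu' : u'.det ≠ 0) : ip D (rt u (F i)) (rt u' (F j)) = 0 := by
  have h1 := ((hIPT m N T D hS (F i) (F i) (lam i) (lam i) (hF i) (hF i)).1 u hu).1
  have h2 := ((hIPT m N T D hS (F j) (F j) (lam j) (lam j) (hF j) (hF j)).1 u' hu').1
  have h3 := ((hIPT m N T D hS _ _ (lam i) (lam j) h1 h2).1 u'⁻¹ (det_inv_ne hu')).2.2
  have e1 : rt u'⁻¹ (rt u (F i)) = rt (u'⁻¹ * u) (F i) := by
    funext g x
    show F i (g * u'⁻¹ * u) x = F i (g * (u'⁻¹ * u)) x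
    rw [Matrix.mul_assoc]
  have e2 : rt u'⁻¹ (rt u' (F j)) = F j := by
    funext g x
    show F j (g * u'⁻¹ * u') x = F j g x
    rw [Matrix.mul_assoc, Matrix.nonsing_inv_mul _ (isUnit_iff_ne_zero.2 hu'), Matrix.mul_one]
  rw [e1, e2] at h3
  rw [← h3]
  refine hO.orth i j hij _ ?_
  rw [Matrix.det_mul]
  exact mul_ne_zero (det_inv_ne hu') hu

/-- scalar products of the measurable families -/
theorem fF_ip {m N : ℕ} [NeZero N] (hm1 : 1 ≤ m) {D : Set (V m)} (hD : DomZ m D)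
    (F G : Mat m → VN m N → ℂ) {u u' : V m} (hu : (mt u).det ≠ 0) (hu' : (mt u').det ≠ 0) :
    ∑ w, ∫ h in D, fF F u h w * conj (fF G u' h w) ∂(hm m) =
      ip D (rt (mt u) F) (rt (mt u') G) := by
  refine Finset.sum_congr rfl fun w _ => setIntegral_congr_fun hD.meas fun h hh => ?_
  have h0 := det_ne_D hm1 hD hh
  show fF F u h w * conj (fF G u' h w) = _
  rw [fF_eq F w hu h0, fF_eq G w hu' h0]

theorem rF_ip (hM : T_MSR) {m N : ℕ} [NeZero N] (hm1 : 1 ≤ m) {D : Set (V m)} (hD : DomZ m D)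
    (k : Mat m → ℂ)
    (F G : Mat m → VN m N → ℂ) {u u' : V m} (hu : (mt u).det ≠ 0) (hu' : (mt u').det ≠ 0) :
    ∑ w, ∫ h in D, rF k F u h w * conj (rF k G u' h w) ∂(hm m) =
      ip D (Rr k 1 (rt (mt u) F)) (Rr k 1 (rt (mt u') G)) := by
  refine Finset.sum_congr rfl fun w _ => setIntegral_congr_fun hD.meas fun h hh => ?_
  have h0 := det_ne_D hm1 hD hh
  show rF k F u h w * conj (rF k G u' h w) = _
  rw [rF_eq hM hm1 k F w hu h0, rF_eq hM hm1 k G w hu' h0]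

theorem Hn_nn {m N : ℕ} [NeZero N] (r : ℝ) (D : Set (V m)) (F : Mat m → VN m N → ℂ) :
    0 ≤ Hn r D F := integral_nonneg fun u => by positivity

theorem pf_LSK (hOCD : T_OCD) (hKMD : T_KMD) (hKCD : T_KCD) (hMSD : T_MSD) (hBIA : T_BIA)
    (hTRF : T_TRF) (hIPT : T_IPT) (hQBD : T_QBD) (hMSR : T_MSR) (hHAR : T_HAR) (hVLM : T_VLM)
    (hDYM : T_DYM) : T_LSK := by
  intro m χ r hm1 hχ hr
  obtain ⟨CT, hCT, hT⟩ := hTRF m hm1
  obtain ⟨cQ, CQ, hcQ, hCQ, hQ⟩ := hQBD m χ r hm1 hχ hr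
  obtain ⟨cM, CM, AM, hcM, hCM, hMS⟩ := hMSD m χ hm1 hχ
  obtain ⟨CB, hCB1, hCB⟩ := hBIA m χ hm1 hχ
  have hm0 : (0 : ℝ) < m := by exact_mod_cast hm1
  obtain ⟨r0, hr0, hr1, hr2⟩ : ∃ r0 : ℝ, 0 < r0 ∧ r0 ≤ cQ ∧ 16 * m * r0 ≤ 1 := by
    refine ⟨min cQ (1 / (16 * m)), lt_min hcQ (by positivity), min_le_left _ _, ?_⟩
    have h1 : min cQ (1 / (16 * m)) ≤ 1 / (16 * (m : ℝ)) := min_le_right _ _
    calc 16 * (m : ℝ) * min cQ (1 / (16 * m)) ≤ 16 * m * (1 / (16 * (m : ℝ))) :=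
          mul_le_mul_of_nonneg_left h1 (by positivity)
      _ = 1 := by field_simp
  have hvf := Bn_fin m r0
  have hvp := Bn_pos m hr0
  obtain ⟨v, hv⟩ : ∃ v : ℝ, v = (volume (Bn m r0)).toReal := ⟨_, rfl⟩
  have hv0 : 0 < v := by rw [hv]; exact ENNReal.toReal_pos hvp hvf.ne
  have hvE : volume (Bn m r0) = ENNReal.ofReal v := by rw [hv, ENNReal.ofReal_toReal hvf.ne]
  have hBm : MeasurableSet (Bn m r0) := (Bn_closed m r0).measurableSet
  have hBd : ∀ u ∈ Bn m r0, (mt u).det ≠ 0 := fun u hu => Bn_det hm1 (by linarith) hu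
  have hfν : IsFiniteMeasure ((volume : Measure (V m)).restrict (Bn m r0)) :=
    ⟨by rwa [Measure.restrict_apply_univ]⟩
  refine ⟨min cQ (cM / (1 + CT)), max CM (max 1 (CQ / (cM * v) ^ 2)), AM,
    lt_min hcQ (by positivity), le_max_of_le_left hCM, ?_⟩
  intro N _ T D hS ι _ _ F lam P hF hO δ hδ hδ2 hδc y a x0 Y hy ha hx0 hY
  rcases isEmpty_or_nonempty ι with hι | hι
  · simp
  obtain ⟨i0⟩ := hι
  have hD := hS.dom
  have hfμ : IsFiniteMeasure ((hm m).restrict D) := fin_D hVLM hm1 hD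
  have hH : ∀ i, HecA m N T (F i) (lam i) := fun i => (hF i).1.toHecA
  have hTg : Tg m (bi m χ δ) := (hCB δ hδ hδ2).1.toTg
  have hδQ : δ ≤ cQ := by
    have h1 := hδc i0
    have h2 := (hF i0).2.2
    have h3 : δ * (1 + P i0) ≤ cQ := h1.trans (min_le_left _ _)
    nlinarith
  have hYM : CM * N * δ⁻¹ ^ AM ≤ Y := by
    refine le_trans ?_ hY
    have h1 : CM ≤ max CM (max 1 (CQ / (cM * v) ^ 2)) := le_max_left _ _
    gcongr
  -- trivial case
  by_cases htop : ∫⁻ g in DY D Y, Ed N D δ y x0 (mt g) ∂(hm m) = ⊤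
  · rw [htop, ENNReal.mul_top]
    · exact le_top
    · rw [Ne, ENNReal.ofReal_eq_zero, not_le]
      exact lt_of_lt_of_le one_pos ((le_max_left 1 _).trans (le_max_right _ _))
  have hKC := (hKCD m N χ hm1 hS.two_le hχ y a δ x0 hy ha hδ hδ2 hx0).1
  have hSm : MeasurableSet (DY D Y) := hDYM m D hD Y
  have hDYD : DY D Y ⊆ D := fun z hz => hz.1
  -- the data
  choose Bf hBf using fun i => (hH i).bdd
  obtain ⟨M, hMd⟩ : ∃ M : ℝ, M = (∑ i, max (Bf i) 0) + ∑ i, ∫ (v : V m) in Shell m,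
      ‖bi m χ δ (((1 : ℝ)⁻¹ * (aN (mt v : Mat m))⁻¹) • (mt v : Mat m))‖ * max (Bf i) 0 ∂(hm m) := ⟨_, rfl⟩
  have hs1 : ∀ i, 0 ≤ max (Bf i) 0 := fun i => le_max_right _ _
  have hs2 : ∀ i, 0 ≤ ∫ (v : V m) in Shell m,
      ‖bi m χ δ (((1 : ℝ)⁻¹ * (aN (mt v : Mat m))⁻¹) • (mt v : Mat m))‖ * max (Bf i) 0 ∂(hm m) := fun i =>
    integral_nonneg fun v => mul_nonneg (norm_nonneg _) (hs1 i)
  have hfam : Fam M (fun i u h w => fF (F i) u h w) := by
    refine ⟨fun i x => fF_meas hMSR (hH i).cont x, fun i u g x => ?_⟩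
    refine (fz_bd (hBf i) x _).trans ?_
    rw [hMd]
    have h1 : max (Bf i) 0 ≤ ∑ i, max (Bf i) 0 :=
      Finset.single_le_sum (f := fun i => max (Bf i) 0) (fun i _ => hs1 i) (Finset.mem_univ i)
    have h2 := Finset.sum_nonneg fun i (_ : i ∈ Finset.univ) => hs2 i
    linarith
  have hram : Fam M (fun i u h w => rF (bi m χ δ) (F i) u h w) := by
    refine ⟨fun i x => rF_meas hMSR hTg.cont (hH i).cont x, fun i u g x => ?_⟩
    refine (rF_bd hMSR hHAR hm1 hTg (hBf i) u g x).trans ?_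
    rw [hMd]
    have h1 := Finset.single_le_sum (f := fun i => ∫ (v : V m) in Shell m,
      ‖bi m χ δ (((1 : ℝ)⁻¹ * (aN (mt v : Mat m))⁻¹) • (mt v : Mat m))‖ * max (Bf i) 0 ∂(hm m))
      (fun i _ => hs2 i) (Finset.mem_univ i)
    have h2 := Finset.sum_nonneg fun i (_ : i ∈ Finset.univ) => hs1 i
    have h3 : ∫ (v : V m) in Shell m,
      ‖bi m χ δ (((1 : ℝ)⁻¹ * (aN (mt v : Mat m))⁻¹) • (mt v : Mat m))‖ * max (Bf i) 0 ∂(hm m) ≤
      ∑ i, ∫ (v : V m) in Shell m,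
      ‖bi m χ δ (((1 : ℝ)⁻¹ * (aN (mt v : Mat m))⁻¹) • (mt v : Mat m))‖ * max (Bf i) 0 ∂(hm m) := h1
    linarith
  let _ms : MeasurableSpace (VN m N) := ⊤
  have _hs : MeasurableSingletonClass (VN m N) := ⟨fun _ => trivial⟩
  let _mi : MeasurableSpace ι := ⊤
  have _hi : MeasurableSingletonClass ι := ⟨fun _ => trivial⟩
  have hKm : ∀ x w, Measurable (fun p : V m × V m =>
      Kc (bi m χ δ) a δ x0 (mt p.1) x (mt p.2) w) := fun x w =>
    (hKMD m N δ y x w hm1).2 _ hTg a x0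
  have hE : ∫⁻ g in DY D Y, ∑ x : VN m N, ∫⁻ h in D, ∑ w : VN m N,
      ENNReal.ofReal (‖Kc (bi m χ δ) a δ x0 (mt g) x (mt h) w‖ ^ 2) ∂(hm m) ∂(hm m) ≤
      ∫⁻ g in DY D Y, Ed N D δ y x0 (mt g) ∂(hm m) := by
    refine lintegral_mono fun g => ?_
    unfold Ed
    refine Finset.sum_le_sum fun x _ => lintegral_mono fun h => Finset.sum_le_sum fun w _ => ?_
    rw [ENNReal.ofReal_pow (norm_nonneg _)]
    exact pow_le_pow_left' (hKC _ _ _ _) 2
  have hres : ((hm m).restrict D).restrict (DY D Y) = (hm m).restrict (DY D Y) :=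
    Measure.restrict_restrict_of_subset hDYD
  have haeB : ∀ᵐ u ∂((volume : Measure (V m)).restrict (Bn m r0)), u ∈ Bn m r0 :=
    ae_restrict_mem hBm
  have hmain := lay2 ((hm m).restrict D) ((volume : Measure (V m)).restrict (Bn m r0))
    (f := fun i u h w => fF (F i) u h w) (r := fun i u h w => rF (bi m χ δ) (F i) u h w)
    hfam hram (K := fun g x h w => Kc (bi m χ δ) a δ x0 (mt g) x (mt h) w) hKm
    (c := fun i => conj (Bs m (lam i) a y δ x0) * (((Hn r D (F i))⁻¹ : ℝ) : ℂ))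
    (Bc := fun i => Bs m (lam i) a y δ x0)
    (b := fun i => ‖Bs m (lam i) a y δ x0‖ ^ 2 * (Hn r D (F i))⁻¹)
    (fun i => mul_nonneg (by positivity) (inv_nonneg.2 (Hn_nn _ _ _)))
    (fun i => by
      rw [mul_right_comm, mul_comm (conj (Bs m (lam i) a y δ x0)), Complex.mul_conj,
        Complex.normSq_eq_norm_sq]
      push_cast
      rfl) (S := DY D Y) hSm
    (fun g hg x _ i => by
      filter_upwards [haeB] with u hu
      have hg0 := det_ne_D hm1 hD (hDYD hg)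
      have h1 := ((hIPT m N T D hS (F i) (F i) (lam i) (lam i) (hH i) (hH i)).1 (mt u)
        (hBd u hu)).1
      have h2 := hOCD m N T D hS (rt (mt u) (F i)) (lam i) h1 χ hχ y a δ x0 hy ha hδ hδ2 hx0
        (mt g) x hg0
      rw [rF_eq hMSR hm1 _ _ x (hBd u hu) hg0, ← h2]
      refine setIntegral_congr_fun hD.meas fun h hh => Finset.sum_congr rfl fun w _ => ?_
      rw [fF_eq (F i) w (hBd u hu) (det_ne_D hm1 hD hh)])
    (by
      rw [hres]
      exact (hE.trans_lt (lt_top_iff_ne_top.2 htop)).ne)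
    (fun i j hij => by
      filter_upwards [haeB] with u hu
      filter_upwards [haeB] with u' hu'
      rw [fF_ip hm1 hD (F i) (F j) (hBd u hu) (hBd u' hu')]
      exact ip_orth hIPT hS hH hO hij (hBd u hu) (hBd u' hu'))
  rw [hres] at hmain
  -- the diagonal terms
  have hdiag : ∀ i, ‖∫ u in Bn m r0, ∫ u' in Bn m r0,
      (∑ w, ∫ h in D, fF (F i) u h w * conj (fF (F i) u' h w) ∂(hm m)) *
      conj (∑ x, ∫ g in D, rF (bi m χ δ) (F i) u g x * conj (rF (bi m χ δ) (F i) u' g x)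
        ∂(hm m))‖ ≤ CQ * tb m χ δ ^ 2 * Hn r D (F i) := by
    intro i
    have h1 := hQ N T D hS (F i) (lam i) (hH i) (hO.one i) r0 δ hr0 hr1 hδ hδQ
    refine le_trans (le_of_eq ?_) h1
    congr 1
    refine setIntegral_congr_fun hBm fun u hu => setIntegral_congr_fun hBm fun u' hu' => ?_
    show (∑ w, ∫ h in D, fF (F i) u h w * conj (fF (F i) u' h w) ∂(hm m)) *
      conj (∑ x, ∫ g in D, rF (bi m χ δ) (F i) u g x * conj (rF (bi m χ δ) (F i) u' g x)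
        ∂(hm m)) = _
    rw [fF_ip hm1 hD (F i) (F i) (hBd u hu) (hBd u' hu'),
      rF_ip hMSR hm1 hD _ (F i) (F i) (hBd u hu) (hBd u' hu')]
  obtain ⟨Sb, hSb⟩ : ∃ Sb : ℝ, Sb = ∑ i, ‖Bs m (lam i) a y δ x0‖ ^ 2 * (Hn r D (F i))⁻¹ :=
    ⟨_, rfl⟩
  have hSbi : ∀ i, 0 ≤ ‖Bs m (lam i) a y δ x0‖ ^ 2 * (Hn r D (F i))⁻¹ := fun i =>
    mul_nonneg (by positivity) (inv_nonneg.2 (Hn_nn _ _ _))
  have hSb0 : 0 ≤ Sb := by rw [hSb]; exact Finset.sum_nonneg fun i _ => hSbi i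
  have hT0 : 0 ≤ tb m χ δ ^ 2 := by positivity
  have hright : ∑ i, ‖conj (Bs m (lam i) a y δ x0) * (((Hn r D (F i))⁻¹ : ℝ) : ℂ)‖ ^ 2 *
      ‖∫ u in Bn m r0, ∫ u' in Bn m r0,
      (∑ w, ∫ h in D, fF (F i) u h w * conj (fF (F i) u' h w) ∂(hm m)) *
      conj (∑ x, ∫ g in D, rF (bi m χ δ) (F i) u g x * conj (rF (bi m χ δ) (F i) u' g x)
        ∂(hm m))‖ ≤ CQ * tb m χ δ ^ 2 * Sb := by
    rw [hSb, Finset.mul_sum]
    refine Finset.sum_le_sum fun i _ => ?_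
    refine (mul_le_mul_of_nonneg_left (hdiag i) (by positivity)).trans (le_of_eq ?_)
    rw [norm_mul, RCLike.norm_conj, Complex.norm_real,
      Real.norm_of_nonneg (inv_nonneg.2 (Hn_nn _ _ _))]
    by_cases h0 : Hn r D (F i) = 0
    · rw [h0]
      simp
    · field_simp
  have hmass : ∀ i, ENNReal.ofReal (cM * tb m χ δ ^ 2 * v) ≤
      ∫⁻ u in Bn m r0, ∑ x, ∫⁻ g in DY D Y,
        ENNReal.ofReal (‖rF (bi m χ δ) (F i) u g x‖ ^ 2) ∂(hm m) := by
    intro i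
    have h1 : ∀ u ∈ Bn m r0, ENNReal.ofReal (cM * tb m χ δ ^ 2) ≤ ∑ x, ∫⁻ g in DY D Y,
        ENNReal.ofReal (‖rF (bi m χ δ) (F i) u g x‖ ^ 2) ∂(hm m) := by
      intro u hu
      have hu1 : 16 * m * sz ((mt u : Mat m) - 1) ≤ 1 := by
        have h2 : sz ((mt u : Mat m) - 1) ≤ r0 := hu
        have h3 : 16 * m * sz ((mt u : Mat m) - 1) ≤ 16 * m * r0 :=
          mul_le_mul_of_nonneg_left h2 (by positivity)
        linarith
      obtain ⟨t1, t2, t3⟩ := hT N T D hS (F i) (lam i) (P i) (hF i).1 (hO.one i) (hF i).2.1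
        (hF i).2.2 (mt u) hu1
      have hPi := (hF i).2.2
      have h4 : δ * (1 + CT * (1 + P i)) ≤ cM := by
        have h5 : δ * (1 + P i) ≤ cM / (1 + CT) := (hδc i).trans (min_le_right _ _)
        have h6 : δ * (1 + CT * (1 + P i)) ≤ (1 + CT) * (δ * (1 + P i)) := by
          nlinarith [mul_nonneg hδ.le hPi]
        refine h6.trans ?_
        calc (1 + CT) * (δ * (1 + P i)) ≤ (1 + CT) * (cM / (1 + CT)) :=
              mul_le_mul_of_nonneg_left h5 (by linarith)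
          _ = cM := by field_simp
      have h7 := hMS N T D hS (rt (mt u) (F i)) (lam i) t1 t2 (CT * (1 + P i)) δ t3
        (by positivity) hδ hδ2 h4 Y hYM
      refine h7.trans (le_of_eq ?_)
      refine Finset.sum_congr rfl fun x _ => setLIntegral_congr_fun hSm fun g hg => ?_
      show _ = ENNReal.ofReal (‖rF (bi m χ δ) (F i) u g x‖ ^ 2)
      rw [rF_eq hMSR hm1 _ _ x (hBd u hu) (det_ne_D hm1 hD (hDYD hg))]
    calc ENNReal.ofReal (cM * tb m χ δ ^ 2 * v) =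
        ∫⁻ _u in Bn m r0, ENNReal.ofReal (cM * tb m χ δ ^ 2) := by
          rw [setLIntegral_const, hvE, ← ENNReal.ofReal_mul (by positivity)]
      _ ≤ _ := setLIntegral_mono' hBm h1
  have hleft : ENNReal.ofReal (cM * tb m χ δ ^ 2 * v * Sb) ≤
      ∑ i, ENNReal.ofReal (‖Bs m (lam i) a y δ x0‖ ^ 2 * (Hn r D (F i))⁻¹) *
        ∫⁻ u in Bn m r0, ∑ x, ∫⁻ g in DY D Y,
          ENNReal.ofReal (‖rF (bi m χ δ) (F i) u g x‖ ^ 2) ∂(hm m) := by
    have h1 : ENNReal.ofReal (cM * tb m χ δ ^ 2 * v * Sb) =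
        ∑ i, ENNReal.ofReal (‖Bs m (lam i) a y δ x0‖ ^ 2 * (Hn r D (F i))⁻¹) *
          ENNReal.ofReal (cM * tb m χ δ ^ 2 * v) := by
      rw [hSb, ← Finset.sum_mul, ← ENNReal.ofReal_sum_of_nonneg fun i _ => hSbi i,
        ← ENNReal.ofReal_mul (Finset.sum_nonneg fun i _ => hSbi i), mul_comm]
    rw [h1]
    exact Finset.sum_le_sum fun i _ => mul_le_mul_right (hmass i) _
  obtain ⟨e, he⟩ : ∃ e : ℝ, e = (∫⁻ g in DY D Y, Ed N D δ y x0 (mt g) ∂(hm m)).toReal := ⟨_, rfl⟩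
  have he0 : 0 ≤ e := by rw [he]; exact ENNReal.toReal_nonneg
  have heE : ∫⁻ g in DY D Y, Ed N D δ y x0 (mt g) ∂(hm m) = ENNReal.ofReal e := by
    rw [he, ENNReal.ofReal_toReal htop]
  have hfinal : (cM * tb m χ δ ^ 2 * v * Sb) ^ 2 ≤ e * (CQ * tb m χ δ ^ 2 * Sb) := by
    rw [← ENNReal.ofReal_le_ofReal_iff (by positivity), ENNReal.ofReal_mul he0,
      ENNReal.ofReal_pow (by positivity), ← heE]
    refine (pow_le_pow_left' hleft 2).trans (hmain.trans ?_)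
    exact mul_le_mul' hE (ENNReal.ofReal_le_ofReal hright)
  have hnum := lsk_num hcM hv0 hT0 hSb0 hfinal he0 hCQ.le
  rw [heE, ← ENNReal.ofReal_sum_of_nonneg fun i _ => hSbi i, ← hSb,
    ← ENNReal.ofReal_mul hT0, ← ENNReal.ofReal_mul (by positivity)]
  refine ENNReal.ofReal_le_ofReal (hnum.trans ?_)
  exact mul_le_mul_of_nonneg_right ((le_max_right 1 _).trans (le_max_right _ _)) he0

end Pool.Agent.H62.GHK
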